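import Pool.Agent.Helper17.OD.GoalsCV

/-! Packet SYS: the system of mice. -/

namespace Pool.Agent.Helper17.OD.PkSYS

open Set

theorem leaves_map (f : O → O) (t : T) : (t.map f).leaves = f '' t.leaves := by
  induction t with
  | nat n => simp [Tr.map, Tr.leaves]
  | ord a => simp [Tr.map, Tr.leaves]
  | pr s t hs ht => simp [Tr.map, Tr.leaves, hs, ht, image_union]

theorem exists_bd {α : O} (hα : Order.IsSuccLimit α) (h0 : 0 < α) (t : T) (h : t ∈ D (Iio α)) :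
    ∃ b < α, t ∈ D (Iio b) := by
  induction t with
  | nat n => exact ⟨0, h0, nat_mem _ _⟩
  | ord a => exact ⟨Order.succ a, hα.succ_lt (ord_mem.1 h), ord_mem.2 (Order.lt_succ a)⟩
  | pr s t hs ht =>
    obtain ⟨b, hb, hb'⟩ := hs (pr_mem.1 h).1
    obtain ⟨c, hc, hc'⟩ := ht (pr_mem.1 h).2
    exact ⟨max b c, max_lt hb hc, pr_mem.2 ⟨D_mono (Iio_subset_Iio (le_max_left _ _)) hb',
      D_mono (Iio_subset_Iio (le_max_right _ _)) hc'⟩⟩

theorem code_mem (c : Code) (A : Set O) : (Tr.ofCode c : T) ∈ D A := by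
  induction c with
  | nat n => exact nat_mem _ _
  | ord a => exact a.elim
  | pr s t hs ht => exact pr_mem.2 ⟨hs, ht⟩

/-- Order of cuts. -/
def cle (q q' : T × T) : Prop := q.1.lt q'.1 ∨ (q.1 = q'.1 ∧ ¬ q'.2.lt q.2)

theorem cle_total (hLTO : G_LTO.{2}) (q q' : T × T) : cle q q' ∨ cle q' q := by
  obtain ⟨h1, h2, h3⟩ := hLTO O
  rcases h3 q.1 q'.1 with h | h | h
  · exact Or.inl (Or.inl h)
  · by_cases h4 : q'.2.lt q.2
    · exact Or.inr (Or.inr ⟨h.symm, fun h5 => h1 _ (h2 _ _ _ h4 h5)⟩)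
    · exact Or.inl (Or.inr ⟨h, h4⟩)
  · exact Or.inr (Or.inl h)

theorem cle_refl (hLTO : G_LTO.{2}) (q : T × T) : cle q q := Or.inr ⟨rfl, (hLTO O).1 _⟩

theorem av_mono (hLTO : G_LTO.{2}) {q q' : T × T} (h : cle q q') {ψ : Code} {e : T}
    (ha : av (.pr q.1 q.2) ψ e) : av (.pr q'.1 q'.2) ψ e := by
  obtain ⟨h1, h2, h3⟩ := hLTO O
  change (Tr.ofCode ψ).lt q.1 ∨ (Tr.ofCode ψ = q.1 ∧ e.lt q.2) at ha
  change (Tr.ofCode ψ).lt q'.1 ∨ (Tr.ofCode ψ = q'.1 ∧ e.lt q'.2)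
  rcases h with h | ⟨h, h'⟩
  · rcases ha with ha | ⟨ha, -⟩
    · exact Or.inl (h2 _ _ _ ha h)
    · exact Or.inl (ha ▸ h)
  · rcases ha with ha | ⟨ha, ha'⟩
    · exact Or.inl (h ▸ ha)
    · refine Or.inr ⟨ha.trans h, ?_⟩
      rcases h3 q.2 q'.2 with h4 | h4 | h4
      · exact h2 _ _ _ ha' h4
      · exact h4 ▸ ha'
      · exact absurd h4 h'

/-- The cut works. -/
def Wk (α β : O) (q : T) : Prop :=
  ∃ d < β, ∃ p ∈ D (Iio α), Iio β ⊆ Hull α (av q) (Iio d ∪ p.leaves)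

theorem mA_mouse (a : O) (φ u : T) (d : O) (p : T) : mA (mouse a φ u d p) = a := rfl
theorem mQ_mouse (a : O) (φ u : T) (d : O) (p : T) : mQ (mouse a φ u d p) = .pr φ u := rfl
theorem mD_mouse (a : O) (φ u : T) (d : O) (p : T) : mD (mouse a φ u d p) = d := rfl
theorem mP_mouse (a : O) (φ u : T) (d : O) (p : T) : mP (mouse a φ u d p) = p := rfl

theorem mle_mouse {a φ u d p a' φ' u' d' p'} :
    mle (mouse a φ u d p) (mouse a' φ' u' d' p') ↔ a ≤ a' ∧ cle (φ, u) (φ', u') ∧ d ≤ d' :=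
  Iff.rfl

/-- The construction in the cases (B), (C), (F). -/
theorem sys_of (hOTP : G_OTP) (hCLB : G_CLB) (hCLC : G_CLC) (hLTO : G_LTO.{2})
    {k β α : O} (hk : SOM k (Con k) (Con k)) (hβk : β < k) (hαk : α < k)
    (hβα : β ≤ α) (hmin : ∀ a < α, ∀ d < β, ∀ p ∈ D (Iio a),
      ¬ Iio β ⊆ Hull a (fun _ _ => True) (Iio d ∪ p.leaves))
    (J : Set (T × T)) (hJ : J.Nonempty)
    (hJm : ∀ q ∈ J, ∃ φ : Code, q.1 = Tr.ofCode φ ∧ q.2 ∈ D (Iio α))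
    (Q₀ : Code → T → Prop)
    (hcov : ∀ (ψ : Code), ∀ e ∈ D (Iio α), Q₀ ψ e → ∃ q ∈ J, av (.pr q.1 q.2) ψ e)
    (hnw : ∀ q ∈ J, ∀ u' ∈ D (Iio α), (u' = q.2 ∨ u'.lt q.2) → ¬ Wk α β (.pr q.1 u'))
    (hSD : SD k (Con k) (Con k) (fun e _ => (e.fst, e.snd) ∈ J))
    {d₀ : O} (hd₀ : d₀ < β) {p₀ : T} (hp₀ : p₀ ∈ D (Iio α))
    (hw : Iio β ⊆ Hull α Q₀ (Iio d₀ ∪ p₀.leaves)) : ∃ I, Sys k β I p₀ d₀ := by
  classical
  refine ⟨{M | ∃ q ∈ J, ∃ d, M = mouse α q.1 q.2 d p₀ ∧ d₀ ≤ d ∧ d < β}, ?_⟩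
  constructor
  · obtain ⟨q, hq⟩ := hJ
    exact ⟨_, q, hq, d₀, rfl, le_rfl, hd₀⟩
  · rintro M ⟨q, hq, d, rfl, h1, h2⟩
    obtain ⟨φ, hφ, hu⟩ := hJm q hq
    exact ⟨α, φ, q.2, d, by rw [hφ], hp₀, hu, h1, h2, h2.le.trans hβα⟩
  · rintro M ⟨q, hq, d, rfl, h1, h2⟩ M' ⟨q', hq', d', rfl, h1', h2'⟩
    rcases cle_total hLTO q q' with h | h
    · exact ⟨_, ⟨q', hq', max d d', rfl, h1.trans (le_max_left _ _), max_lt h2 h2'⟩,
        ⟨le_rfl, h, le_max_left _ _⟩, ⟨le_rfl, cle_refl hLTO _, le_max_right _ _⟩⟩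
    · exact ⟨_, ⟨q, hq, max d d', rfl, h1.trans (le_max_left _ _), max_lt h2 h2'⟩,
        ⟨le_rfl, cle_refl hLTO _, le_max_left _ _⟩, ⟨le_rfl, h, le_max_right _ _⟩⟩
  · rintro M ⟨q, hq, d, rfl, h1, h2⟩ M' ⟨q', hq', d', rfl, h1', h2'⟩ -
    exact Or.inl rfl
  · rintro M ⟨q, hq, d, rfl, h1, h2⟩ d' hd'
    exact ⟨_, ⟨q, hq, max d d', rfl, h1.trans (le_max_left _ _), max_lt h2 hd'⟩,
      ⟨le_rfl, cle_refl hLTO _, le_max_left _ _⟩, le_max_right _ _⟩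
  · intro x hx
    have h1 : TCl α Q₀ (Iio d₀ ∪ p₀.leaves) (.ord x) := hw hx
    have hne : Nonempty J := hJ.to_subtype
    have h2 : TCl α (fun φ e => ∃ i : J, av (.pr i.1.1 i.1.2) φ e)
        (⋃ _ : J, (Iio d₀ ∪ p₀.leaves)) (.ord x) := by
      rw [iUnion_const]
      refine hCLB α Q₀ _ _ _ (fun ψ e he ha => ?_) (fun y hy hya => .base hy hya) _ h1
      obtain ⟨q, hq, hq'⟩ := hcov ψ e he ha
      exact ⟨⟨q, hq⟩, hq'⟩
    obtain ⟨i, hi⟩ := hCLC α J (fun i j => cle i.1 j.1) (fun i φ e => av (.pr i.1.1 i.1.2) φ e)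
      (fun _ => Iio d₀ ∪ p₀.leaves) hne (fun i j => by
        rcases cle_total hLTO i.1 j.1 with h | h
        · exact ⟨j, h, cle_refl hLTO _⟩
        · exact ⟨i, cle_refl hLTO _, h⟩)
      (fun i j h => ⟨fun φ e => av_mono hLTO h, subset_rfl⟩) _ h2
    exact ⟨_, ⟨i.1, i.2, d₀, rfl, le_rfl, hd₀⟩, hi⟩
  · rintro M ⟨q, hq, d, rfl, h1, h2⟩ a' f hf hfr
    obtain ⟨φ, hφ, hu⟩ := hJm q hq
    refine hOTP α β hmin α q.1 q.2 d p₀ le_rfl hu h2 (h2.le.trans hβα) hp₀ ?_ a' f hf hfr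
    intro _ u' hu' huu d' hd' p' hp' hc
    exact hnw q hq u' hu' huu ⟨d', hd', p', hp', hc⟩
  · have hst : Order.succ α < k := hk.lim.succ_lt hαk
    refine SOM.of_SD (S := Con k) (d := Order.succ α) hst ?_ ?_
    · rintro M ⟨q, hq, d, rfl, h1, h2⟩
      obtain ⟨φ, hφ, hu⟩ := hJm q hq
      have h3 : Iio α ⊆ Iio (Order.succ α) := Iio_subset_Iio (Order.le_succ α)
      refine pr_mem.2 ⟨ord_mem.2 (Order.lt_succ α), pr_mem.2 ⟨pr_mem.2 ⟨?_, D_mono h3 hu⟩,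
        pr_mem.2 ⟨ord_mem.2 (lt_of_lt_of_le (lt_of_lt_of_le h2 hβα) (Order.le_succ α)),
          D_mono h3 hp₀⟩⟩⟩
      rw [hφ]
      exact code_mem _ _
    · have hp₀k : p₀ ∈ D (Iio k) := D_mono (Iio_subset_Iio hαk.le) hp₀
      have hd₀k : d₀ < k := hd₀.trans hβk
      let R : T → Prop := fun e => (e.fst, e.snd) ∈ J
      have hR : SD k (Con k) (Con k) (fun e _ => R e) := hSD
      have h4 : SD k (Con k) (Con k) (fun e _ =>
          e = .pr (.ord α) (.pr (.pr e.snd.fst.fst e.snd.fst.snd) (.pr e.snd.snd.fst p₀)) ∧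
          R e.snd.fst ∧ e.snd.snd.fst.IsOrd ∧ ¬ e.snd.snd.fst.llt (.ord d₀) ∧
          e.snd.snd.fst.llt (.ord β)) := by
        refine SD.and (SD.eq ST.id ?_) (SD.and (SD.app1 hR ST.id.snd.fst) (SD.and
          (SD.isOrd ST.id.snd.snd.fst) (SD.and (SD.llt ST.id.snd.snd.fst (ST.ordc hd₀k)).not
            (SD.llt ST.id.snd.snd.fst (ST.ordc hβk)))))
        exact (ST.ordc hαk).pr ((ST.id.snd.fst.fst.pr ST.id.snd.fst.snd).pr
          (ST.id.snd.snd.fst.pr (ST.const hp₀k)))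
      refine h4.congr fun e _ _ _ => ?_
      constructor
      · rintro ⟨h5, h6, h7, h8, h9⟩
        obtain ⟨d, hd⟩ : ∃ d, e.snd.snd.fst = .ord d := by
          rcases h : e.snd.snd.fst with n | d | ⟨s, t⟩
          · rw [h] at h7; exact h7.elim
          · exact ⟨d, rfl⟩
          · rw [h] at h7; exact h7.elim
        rw [hd] at h5 h8 h9
        exact ⟨_, h6, d, h5, not_lt.1 h8, h9⟩
      · rintro ⟨q, hq, d, rfl, h5, h6⟩
        exact ⟨rfl, hq, trivial, not_lt.2 h5, h6⟩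

/-- The empty cut. -/
theorem av_empty (hHLE : G_HLE.{2}) (ψ : Code) (e : T) : ¬ av (.pr (.nat 0) (.nat 0)) ψ e := by
  obtain ⟨-, -, -, -, h, -, -⟩ := hHLE O
  rintro (h1 | ⟨-, h1⟩)
  · exact h _ h1
  · exact h _ h1

/-- In case (A) the level is a limit. -/
theorem lim_of (hCLB : G_CLB) (hCLE : G_CLE) (hHLE : G_HLE.{2}) {β α : O}
    (hβ : Order.IsSuccLimit β) (hβα : β ≤ α)
    (hmin : ∀ a < α, ∀ d < β, ∀ p ∈ D (Iio a),
      ¬ Iio β ⊆ Hull a (fun _ _ => True) (Iio d ∪ p.leaves))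
    {d₀ : O} (hd₀ : d₀ < β) {p₀ : T}
    (hw : Iio β ⊆ Hull α (av (.pr (.nat 0) (.nat 0))) (Iio d₀ ∪ p₀.leaves)) :
    Order.IsSuccLimit α := by
  have hα0 : 0 < α := lt_of_lt_of_le (lt_of_le_of_lt zero_le hd₀) hβα
  refine ⟨fun h => absurd (h.eq_bot) hα0.ne', ?_⟩
  intro a ha
  have hs : Order.succ a = α := ha.succ_eq
  have hlt : a < α := ha.lt
  have hβa : β ≤ a := by
    by_contra hc
    have h1 : Order.succ a < β := hβ.succ_lt (not_le.1 hc)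
    rw [hs] at h1
    exact absurd hβα (not_le.2 h1)
  have ha0 : 0 < a := lt_of_lt_of_le (lt_of_le_of_lt zero_le hd₀) hβa
  classical
  let f : O → O := fun x => if x < a then x else 0
  have hp : p₀.map f ∈ D (Iio a) := by
    change (p₀.map f).leaves ⊆ Iio a
    rw [leaves_map]
    rintro _ ⟨x, -, rfl⟩
    change (if x < a then x else 0) < a
    split_ifs with h
    · exact h
    · exact ha0
  refine hmin a hlt d₀ hd₀ _ hp ?_
  intro x hx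
  have h1 := hw hx
  rw [← hs] at h1
  have h2 := hCLE a (fun _ _ => True) (av (.pr (.nat 0) (.nat 0))) _ (fun _ _ => trivial)
    (av_empty hHLE) h1
  rcases h2 with h2 | h2
  · refine hCLB a _ _ _ _ (fun _ _ _ h => h) (fun y hy hya => ?_) _ h2
    refine .base ?_ hya
    rcases hy with hy | hy
    · exact Or.inl hy
    · right
      rw [leaves_map]
      exact ⟨y, hy, if_pos hya⟩
  · rw [mem_singleton_iff] at h2
    subst h2
    exact absurd (lt_of_lt_of_le hx hβa) (lt_irrefl _)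

/-- Case (A). -/
theorem sys_A (hOTP : G_OTP) (hCLL : G_CLL) (hLTO : G_LTO.{2}) (hHLE : G_HLE.{2}) (hTRE : G_TRE)
    {k β α : O} (hk : SOM k (Con k) (Con k)) (hβk : β < k) (hαk : α < k)
    (hβα : β ≤ α) (hα : Order.IsSuccLimit α) (hmin : ∀ a < α, ∀ d < β, ∀ p ∈ D (Iio a),
      ¬ Iio β ⊆ Hull a (fun _ _ => True) (Iio d ∪ p.leaves))
    {d₀ : O} (hd₀ : d₀ < β) {p₀ : T} (hp₀ : p₀ ∈ D (Iio α))
    (hw : Iio β ⊆ Hull α (av (.pr (.nat 0) (.nat 0))) (Iio d₀ ∪ p₀.leaves)) :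
    ∃ I, Sys k β I p₀ d₀ := by
  classical
  have hα0 : 0 < α := lt_of_lt_of_le (lt_of_le_of_lt zero_le hd₀) hβα
  obtain ⟨b₀, hb₀, hb₀p⟩ := exists_bd hα hα0 p₀ hp₀
  have hcr : cle (.nat 0, .nat 0) (.nat 0, .nat 0) := cle_refl hLTO _
  refine ⟨{M | ∃ a < α, ∃ d, M = mouse a (.nat 0) (.nat 0) d p₀ ∧ p₀ ∈ D (Iio a) ∧ d₀ ≤ d ∧
    d < β ∧ d ≤ a}, ?_⟩
  constructor
  · exact ⟨_, max b₀ d₀, max_lt hb₀ (hd₀.trans_le hβα), d₀, rfl,
      D_mono (Iio_subset_Iio (le_max_left _ _)) hb₀p, le_rfl, hd₀, le_max_right _ _⟩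
  · rintro M ⟨a, ha, d, rfl, h1, h2, h3, h4⟩
    exact ⟨a, .nat 0, .nat 0, d, rfl, h1, nat_mem _ _, h2, h3, h4⟩
  · rintro M ⟨a, ha, d, rfl, h1, h2, h3, h4⟩ M' ⟨a', ha', d', rfl, h1', h2', h3', h4'⟩
    exact ⟨_, ⟨max a a', max_lt ha ha', max d d', rfl,
      D_mono (Iio_subset_Iio (le_max_left _ _)) h1, h2.trans (le_max_left _ _), max_lt h3 h3',
      max_le_max h4 h4'⟩, ⟨le_max_left _ _, hcr, le_max_left _ _⟩,
      ⟨le_max_right _ _, hcr, le_max_right _ _⟩⟩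
  · rintro M ⟨a, ha, d, rfl, h1, h2, h3, h4⟩ M' ⟨a', ha', d', rfl, h1', h2', h3', h4'⟩ -
    exact Or.inr rfl
  · rintro M ⟨a, ha, d, rfl, h1, h2, h3, h4⟩ d' hd'
    exact ⟨_, ⟨max a d', max_lt ha (hd'.trans_le hβα), max d d', rfl,
      D_mono (Iio_subset_Iio (le_max_left _ _)) h1, h2.trans (le_max_left _ _), max_lt h3 hd',
      max_le_max h4 le_rfl⟩, ⟨le_max_left _ _, hcr, le_max_left _ _⟩, le_max_right _ _⟩
  · intro x hx
    obtain ⟨b, hb, hb'⟩ := hCLL α hα _ _ _ (av_empty hHLE) (hw hx)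
    refine ⟨_, ⟨max (max b b₀) d₀, max_lt (max_lt hb hb₀) (hd₀.trans_le hβα), d₀, rfl, ?_, le_rfl,
      hd₀, le_max_right _ _⟩, hb' _ ((le_max_left _ _).trans (le_max_left _ _))
        (max_lt (max_lt hb hb₀) (hd₀.trans_le hβα)) _⟩
    exact D_mono (Iio_subset_Iio ((le_max_right _ _).trans (le_max_left _ _))) hb₀p
  · rintro M ⟨a, ha, d, rfl, h1, h2, h3, h4⟩ a' f hf hfr
    refine hOTP α β hmin a (.nat 0) (.nat 0) d p₀ ha.le (nat_mem _ _) h3 h4 h1 ?_ a' f hf hfr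
    intro h5
    exact absurd h5 ha.ne
  · refine SOM.of_SD (S := Con k) (d := α) hαk ?_ ?_
    · rintro M ⟨a, ha, d, rfl, h1, h2, h3, h4⟩
      exact pr_mem.2 ⟨ord_mem.2 ha, pr_mem.2 ⟨pr_mem.2 ⟨nat_mem _ _, nat_mem _ _⟩,
        pr_mem.2 ⟨ord_mem.2 (h3.trans_le hβα), hp₀⟩⟩⟩
    · have hp₀k : p₀ ∈ D (Iio k) := D_mono (Iio_subset_Iio hαk.le) hp₀
      have hd₀k : d₀ < k := hd₀.trans hβk
      have hInD : SD k (Con k) (Con k) (fun e _ => InD e.fst e.snd) := by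
        obtain ⟨-, -, -, -, -, h, -⟩ := hTRE k (Con k) (Con k) hk
        exact h
      have h4 : SD k (Con k) (Con k) (fun e _ =>
          e = .pr e.fst (.pr (.pr (.nat 0) (.nat 0)) (.pr e.snd.snd.fst p₀)) ∧
          e.fst.IsOrd ∧ e.fst.llt (.ord α) ∧ InD e.fst p₀ ∧ e.snd.snd.fst.IsOrd ∧
          ¬ e.snd.snd.fst.llt (.ord d₀) ∧ e.snd.snd.fst.llt (.ord β) ∧
          ¬ e.fst.llt e.snd.snd.fst) := by
        refine SD.and (SD.eq ST.id ?_) (SD.and (SD.isOrd ST.id.fst) (SD.and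
          (SD.llt ST.id.fst (ST.ordc hαk)) (SD.and (SD.app2 hInD ST.id.fst (ST.const hp₀k))
          (SD.and (SD.isOrd ST.id.snd.snd.fst) (SD.and
            (SD.llt ST.id.snd.snd.fst (ST.ordc hd₀k)).not (SD.and
            (SD.llt ST.id.snd.snd.fst (ST.ordc hβk)) (SD.llt ST.id.fst ST.id.snd.snd.fst).not))))))
        exact ST.id.fst.pr (((ST.nat 0).pr (ST.nat 0)).pr
          (ST.id.snd.snd.fst.pr (ST.const hp₀k)))
      refine h4.congr fun e _ _ _ => ?_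
      constructor
      · rintro ⟨h5, h6, h7, h8, h9, h10, h11, h12⟩
        obtain ⟨d, hd⟩ : ∃ d, e.snd.snd.fst = .ord d := by
          rcases h : e.snd.snd.fst with n | d | ⟨s, t⟩
          · rw [h] at h9; exact h9.elim
          · exact ⟨d, rfl⟩
          · rw [h] at h9; exact h9.elim
        obtain ⟨a, ha⟩ : ∃ a, e.fst = .ord a := by
          rcases h : e.fst with n | d | ⟨s, t⟩
          · rw [h] at h6; exact h6.elim
          · exact ⟨d, rfl⟩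
          · rw [h] at h6; exact h6.elim
        rw [hd] at h5 h10 h11 h12
        rw [ha] at h5 h7 h8 h12
        obtain ⟨b, hb, hb'⟩ := h8
        obtain rfl : a = b := by injection hb
        exact ⟨a, h7, d, h5, hb', not_lt.1 h10, h11, not_lt.1 h12⟩
      · rintro ⟨a, ha, d, rfl, h1, h2, h3, h4⟩
        exact ⟨rfl, trivial, ha, ⟨a, rfl, h1⟩, trivial, not_lt.2 h2, h3, not_lt.2 h4⟩

theorem thm (hOTP : G_OTP) (hCLA : G_CLA) (hCLB : G_CLB) (hCLC : G_CLC) (hCLL : G_CLL)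
    (hCLD : G_CLD) (hCLE : G_CLE) (hHLE : G_HLE.{2}) (hLTO : G_LTO.{2}) (hLTW : G_LTW.{2})
    (hOFC : G_OFC.{2}) (hTRE : G_TRE) : G_SYS := by
  intro k w β hk hwβ hβk hβ ⟨a, hak, p, hp, hwa, hall⟩
  obtain ⟨lt_irr, lt_tr, lt_tri⟩ := hLTO O
  obtain ⟨-, -, -, -, lt_zero, zero_lt, exc⟩ := hHLE O
  have hwf := hLTW O
  let P : O → Prop := fun a => ∃ d < β, ∃ p ∈ D (Iio a),
    Iio β ⊆ Hull a (fun _ _ => True) (Iio d ∪ p.leaves)
  have hPa : P a := ⟨w, hwβ, p, hp, fun x hx => hall x hx⟩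
  obtain ⟨α, hα, hαm⟩ : ∃ α, P α ∧ ∀ x < α, ¬ P x :=
    ⟨sInf {a | P a}, csInf_mem (s := {a | P a}) ⟨a, hPa⟩, fun x hx h =>
      notMem_of_lt_csInf' hx h⟩
  have hαk : α < k := lt_of_le_of_lt (not_lt.1 fun h => hαm a h hPa) hak
  have hβα : β ≤ α := by
    obtain ⟨d, hd, p, hp, h⟩ := hα
    by_contra hc
    have h1 : α ∈ Iio α := (hCLA _ _ _).2.1 (h (show α ∈ Iio β from not_le.1 hc))
    exact lt_irrefl α h1
  have hmin : ∀ a < α, ∀ d < β, ∀ p ∈ D (Iio a),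
      ¬ Iio β ⊆ Hull a (fun _ _ => True) (Iio d ∪ p.leaves) :=
    fun a ha d hd p hp h => hαm a ha ⟨d, hd, p, hp, h⟩
  obtain ⟨-, sdlt, -, -, -, sdin, sdcode, -⟩ := hTRE k (Con k) (Con k) hk
  have hDk : D (Iio α) ⊆ D (Iio k) := D_mono (Iio_subset_Iio hαk.le)
  have hInD : ∀ t : T, InD (.ord α) t ↔ t ∈ D (Iio α) := by
    intro t
    constructor
    · rintro ⟨b, hb, hb'⟩
      obtain rfl : α = b := by injection hb
      exact hb'
    · exact fun h => ⟨α, rfl, h⟩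
  by_cases hF : ∃ φ : Code, ∃ u ∈ D (Iio α), Wk α β (.pr (Tr.ofCode φ) u)
  · obtain ⟨φ₀, hφ₀, hφm⟩ := hwf.has_min
      {t : T | ∃ φ : Code, t = Tr.ofCode φ ∧ ∃ u ∈ D (Iio α), Wk α β (.pr t u)} (by
        obtain ⟨φ, u, hu, h⟩ := hF
        exact ⟨_, φ, rfl, u, hu, h⟩)
    obtain ⟨φc, hφc, u₁, hu₁, hw₁⟩ := hφ₀
    obtain ⟨u₀, ⟨hu₀, hwu⟩, hum⟩ := hwf.has_min {u | u ∈ D (Iio α) ∧ Wk α β (.pr φ₀ u)}
      ⟨u₁, hu₁, hw₁⟩
    have hum' : ∀ u ∈ D (Iio α), u.lt u₀ → ¬ Wk α β (.pr φ₀ u) := fun u hu h h' =>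
      hum u ⟨hu, h'⟩ h
    have hφm' : ∀ (c : Code) (u : T), u ∈ D (Iio α) → (Tr.ofCode c).lt φ₀ →
        ¬ Wk α β (.pr (Tr.ofCode c) u) := fun c u hu h h' => hφm _ ⟨c, rfl, u, hu, h'⟩ h
    obtain ⟨d₀, hd₀, p₀, hp₀, hw⟩ := hwu
    have hφk : φ₀ ∈ D (Iio k) := by rw [hφc]; exact code_mem _ _
    by_cases hu : u₀ = .nat 0
    · subst hu
      by_cases hφ : φ₀ = .nat 0
      · subst hφ
        have hlim := lim_of hCLB hCLE hHLE hβ hβα hmin hd₀ hw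
        obtain ⟨I, hI⟩ := sys_A hOTP hCLL hLTO hHLE hTRE hk hβk hαk hβα hlim hmin hd₀ hp₀ hw
        exact ⟨I, p₀, d₀, hI⟩
      · obtain ⟨I, hI⟩ := sys_of hOTP hCLB hCLC hLTO hk hβk hαk hβα hmin
          {q | (∃ c : Code, q.1 = Tr.ofCode c) ∧ q.1.lt φ₀ ∧ q.2 ∈ D (Iio α)}
          ⟨(.nat 0, .nat 0), ⟨.nat 0, rfl⟩, zero_lt _ hφ, nat_mem _ _⟩
          (by
            rintro q ⟨⟨c, hc⟩, h1, h2⟩
            exact ⟨c, hc, h2⟩)
          (av (.pr φ₀ (.nat 0)))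
          (by
            rintro ψ e he (h | ⟨-, h⟩)
            · obtain ⟨c, hc⟩ := exc e
              exact ⟨(Tr.ofCode ψ, Tr.ofCode c), ⟨⟨ψ, rfl⟩, h, code_mem _ _⟩, Or.inr ⟨rfl, hc⟩⟩
            · exact absurd h (lt_zero _))
          (by
            rintro ⟨q1, q2⟩ ⟨⟨c, hc⟩, h1, h2⟩ u' hu' -
            change q1 = _ at hc
            subst hc
            exact hφm' c u' hu' h1)
          (by
            have h5 : SD k (Con k) (Con k) (fun e _ => (∃ c : Code, e.fst = Tr.ofCode c) ∧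
                e.fst.lt φ₀ ∧ InD (.ord α) e.snd) := by
              refine SD.and (SD.app1 (R := fun e => ∃ c : Code, e = Tr.ofCode c) sdcode ST.id.fst)
                (SD.and (SD.app2 sdlt ST.id.fst (ST.const hφk))
                  (SD.app2 sdin (ST.ordc hαk) ST.id.snd))
            refine h5.congr fun e _ _ _ => ?_
            rw [hInD]
            rfl)
          hd₀ hp₀ hw
        exact ⟨I, p₀, d₀, hI⟩
    · obtain ⟨I, hI⟩ := sys_of hOTP hCLB hCLC hLTO hk hβk hαk hβα hmin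
          {q | q.1 = φ₀ ∧ q.2 ∈ D (Iio α) ∧ q.2.lt u₀}
          ⟨(φ₀, .nat 0), rfl, nat_mem _ _, zero_lt _ hu⟩
          (by
            rintro q ⟨h1, h2, h3⟩
            exact ⟨φc, h1.trans hφc, h2⟩)
          (av (.pr φ₀ u₀))
          (by
            rintro ψ e he (h | ⟨h, h'⟩)
            · exact ⟨(φ₀, .nat 0), ⟨rfl, nat_mem _ _, zero_lt _ hu⟩, Or.inl h⟩
            · by_contra hc
              have hno : ∀ u ∈ D (Iio α), e.lt u → ¬ u.lt u₀ := fun u hu' heu huu =>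
                hc ⟨(φ₀, u), ⟨rfl, hu', huu⟩, Or.inr ⟨h, heu⟩⟩
              refine hum' e he h' ?_
              obtain ⟨x₀, hx₀, hx⟩ := hCLD α (av (.pr φ₀ e)) (Iio d₀ ∪ p₀.leaves) ψ e
              refine ⟨d₀, hd₀, .pr p₀ x₀, pr_mem.2 ⟨hp₀, hx₀⟩, fun y hy => ?_⟩
              have h1 : TCl α (av (.pr φ₀ u₀)) (Iio d₀ ∪ p₀.leaves) (.ord y) := hw hy
              have h2 := hCLB α _ (fun φ e' => av (.pr φ₀ e) φ e' ∨ (φ = ψ ∧ e' = e)) _
                (Iio d₀ ∪ p₀.leaves) (fun φ e' he' hav => by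
                  rcases hav with hav | ⟨hav, hav'⟩
                  · exact Or.inl (Or.inl hav)
                  · rcases lt_tri e' e with h6 | h6 | h6
                    · exact Or.inl (Or.inr ⟨hav, h6⟩)
                    · exact Or.inr ⟨(hOFC O).1 _ _ (hav.trans h.symm), h6⟩
                    · exact absurd hav' (hno e' he' h6)) (fun y hy hya => .base hy hya) _ h1
              have h3 := hx _ h2
              rw [union_assoc] at h3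
              exact h3)
          (by
            rintro ⟨q1, q2⟩ ⟨h1, h2, h3⟩ u' hu' huu
            change q1 = _ at h1
            subst h1
            refine hum' u' hu' ?_
            rcases huu with rfl | huu
            · exact h3
            · exact lt_tr _ _ _ huu h3)
          (by
            have h5 : SD k (Con k) (Con k) (fun e _ => e.fst = φ₀ ∧ InD (.ord α) e.snd ∧
                e.snd.lt u₀) := by
              refine SD.and (SD.eq ST.id.fst (ST.const hφk))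
                (SD.and (SD.app2 sdin (ST.ordc hαk) ST.id.snd)
                  (SD.app2 sdlt ST.id.snd (ST.const (hDk hu₀))))
            refine h5.congr fun e _ _ _ => ?_
            rw [hInD]
            rfl)
          hd₀ hp₀ hw
      exact ⟨I, p₀, d₀, hI⟩
  · obtain ⟨d₀, hd₀, p₀, hp₀, hw⟩ := hα
    obtain ⟨I, hI⟩ := sys_of hOTP hCLB hCLC hLTO hk hβk hαk hβα hmin
      {q | (∃ c : Code, q.1 = Tr.ofCode c) ∧ q.2 ∈ D (Iio α)}
      ⟨(.nat 0, .nat 0), ⟨.nat 0, rfl⟩, nat_mem _ _⟩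
      (by
        rintro q ⟨⟨c, hc⟩, h2⟩
        exact ⟨c, hc, h2⟩)
      (fun _ _ => True)
      (by
        rintro ψ e he -
        obtain ⟨c, hc⟩ := exc e
        exact ⟨(Tr.ofCode ψ, Tr.ofCode c), ⟨⟨ψ, rfl⟩, code_mem _ _⟩, Or.inr ⟨rfl, hc⟩⟩)
      (by
        rintro ⟨q1, q2⟩ ⟨⟨c, hc⟩, h2⟩ u' hu' - h'
        change q1 = _ at hc
        subst hc
        exact hF ⟨c, u', hu', h'⟩)
      (by
        have h5 : SD k (Con k) (Con k) (fun e _ => (∃ c : Code, e.fst = Tr.ofCode c) ∧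
            InD (.ord α) e.snd) := by
          refine SD.and (SD.app1 (R := fun e => ∃ c : Code, e = Tr.ofCode c) sdcode ST.id.fst)
              (SD.app2 sdin (ST.ordc hαk) ST.id.snd)
        refine h5.congr fun e _ _ _ => ?_
        rw [hInD]
        rfl)
      hd₀ hp₀ hw
    exact ⟨I, p₀, d₀, hI⟩

end Pool.Agent.Helper17.OD.PkSYS
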